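import Pool.Agent.helper59.BR.SpecH

/-! Row brh:HOR of block H (project BR, MP_baa4d7): orthogonality of the columns of two subsections. -/

set_option autoImplicit false

namespace Pool.Agent.BR

open Pool.Agent.helper58.DC Pool.Agent.DI Pool.Agent.GR Pool.Agent.OB Pool.Agent.DR Pool.Agent.FI Pool.Agent.FI3 Pool.Agent.FI4 Pool.Agent.LE

/-- Sums of products. -/
theorem HOR_gen {α β : Type} (S : Finset α) (R R' : Finset β) (f h : α → β → ℂ) (x y : β → ℂ) :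
    ∑ ψ ∈ S, (∑ v ∈ R, f ψ v * x v) * (∑ v ∈ R', h ψ v * y v) =
      ∑ v ∈ R, ∑ v' ∈ R', (x v * y v') * ∑ ψ ∈ S, f ψ v * h ψ v' := by
  have h1 : ∀ ψ ∈ S, (∑ v ∈ R, f ψ v * x v) * (∑ v ∈ R', h ψ v * y v) =
      ∑ v ∈ R, ∑ v' ∈ R', (x v * y v') * (f ψ v * h ψ v') := by
    intro ψ _
    rw [Finset.sum_mul_sum]
    refine Finset.sum_congr rfl fun v _ => Finset.sum_congr rfl fun v' _ => ?_
    ring
  rw [Finset.sum_congr rfl h1, Finset.sum_comm]
  refine Finset.sum_congr rfl fun v _ => ?_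
  rw [Finset.sum_comm]
  refine Finset.sum_congr rfl fun v' _ => ?_
  rw [Finset.mul_sum]

set_option linter.unusedVariables false in
theorem HOR (hBR0 : BR0_stmt) (hBRY : BRY_stmt) (hBLE : BLE_stmt) (hQEI : QEI_stmt) (hQCJ : QCJ_stmt) (hFEQ : FEQ_stmt) (hSFC : SFC_stmt) (hSTC : STC_stmt) (hB2 : B2_stmt) : HOR_stmt := by
  classical
  intro p M hM G _ _ θ u u' hu hu' η hη η' hη' hex
  have hmC : ∀ w x : G, x ∈ Cz (⊤ : Subgroup G) w ↔ w * x = x * w := by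
    intro w x
    unfold Cz
    rw [top_inf_eq, Subgroup.mem_centralizer_iff]
    simp only [Set.mem_singleton_iff, forall_eq]
  obtain ⟨K, hK⟩ : ∃ K : Subgroup G, Cz (⊤ : Subgroup G) u = K := ⟨_, rfl⟩
  obtain ⟨K', hK'⟩ : ∃ K' : Subgroup G, Cz (⊤ : Subgroup G) u' = K' := ⟨_, rfl⟩
  have hmK : ∀ x : G, x ∈ K ↔ u * x = x * u := by
    intro x
    rw [← hK]
    exact hmC u x
  have hmK' : ∀ x : G, x ∈ K' ↔ u' * x = x * u' := by
    intro x
    rw [← hK']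
    exact hmC u' x
  rw [hK] at hη
  rw [hK'] at hη' hex
  rw [hK, hK']
  -- the finite sets
  have hSfin : (Bl M (⊤ : Subgroup G) θ).Finite := (hB2 G ⊤).1.subset fun ψ h => h.1
  have hQfin : (Bq M (⊤ : Subgroup G) K' θ).Finite := (hB2 G K').1.subset fun ψ h => h.1
  have hRfin : {v : G | v ∈ K ∧ PReg p v}.Finite := Set.toFinite _
  have hRfin' : {v : G | v ∈ K' ∧ PReg p v}.Finite := Set.toFinite _
  obtain ⟨S, hS⟩ : ∃ S : Finset (G → ℂ), ∀ ψ, ψ ∈ S ↔ ψ ∈ Bl M (⊤ : Subgroup G) θ :=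
    ⟨hSfin.toFinset, fun ψ => hSfin.mem_toFinset⟩
  obtain ⟨Q, hQ⟩ : ∃ Q : Finset (G → ℂ), ∀ ψ, ψ ∈ Q ↔ ψ ∈ Bq M (⊤ : Subgroup G) K' θ :=
    ⟨hQfin.toFinset, fun ψ => hQfin.mem_toFinset⟩
  obtain ⟨R, hR⟩ : ∃ R : Finset G, ∀ v, v ∈ R ↔ v ∈ K ∧ PReg p v :=
    ⟨hRfin.toFinset, fun v => hRfin.mem_toFinset⟩
  obtain ⟨R', hR'⟩ : ∃ R' : Finset G, ∀ v, v ∈ R' ↔ v ∈ K' ∧ PReg p v :=
    ⟨hRfin'.toFinset, fun v => hRfin'.mem_toFinset⟩
  have hsS : ∀ f : (G → ℂ) → ℂ, ∑ᶠ ψ ∈ Bl M (⊤ : Subgroup G) θ, f ψ = ∑ ψ ∈ S, f ψ := by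
    intro f
    have : (S : Set (G → ℂ)) = Bl M (⊤ : Subgroup G) θ := by
      ext ψ
      exact hS ψ
    rw [← this, finsum_mem_coe_finset]
  have hsQ : ∀ f : (G → ℂ) → ℂ, ∑ᶠ ψ ∈ Bq M (⊤ : Subgroup G) K' θ, f ψ = ∑ ψ ∈ Q, f ψ := by
    intro f
    have : (Q : Set (G → ℂ)) = Bq M (⊤ : Subgroup G) K' θ := by
      ext ψ
      exact hQ ψ
    rw [← this, finsum_mem_coe_finset]
  have hsR : ∀ f : G → ℂ, ∑ᶠ v ∈ {v : G | v ∈ K ∧ PReg p v}, f v = ∑ v ∈ R, f v := by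
    intro f
    have : (R : Set G) = {v : G | v ∈ K ∧ PReg p v} := by
      ext v
      exact hR v
    rw [← this, finsum_mem_coe_finset]
  have hsR' : ∀ f : G → ℂ, ∑ᶠ v ∈ {v : G | v ∈ K' ∧ PReg p v}, f v = ∑ v ∈ R', f v := by
    intro f
    have : (R' : Set G) = {v : G | v ∈ K' ∧ PReg p v} := by
      ext v
      exact hR' v
    rw [← this, finsum_mem_coe_finset]
  -- the product
  have hterm : ∀ ψ ∈ S, az p K η ψ u * (starRingEnd ℂ) (az p K' η' ψ u') =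
      ((Nat.card K : ℂ)⁻¹ * (Nat.card K' : ℂ)⁻¹) *
        ((∑ v ∈ R, ψ (u * v) * η v⁻¹) * (∑ v ∈ R', ψ (u' * v)⁻¹ * η' v)) := by
    intro ψ hψ
    have hψI : ψ ∈ IrrOn (⊤ : Subgroup G) := ((hS ψ).1 hψ).1
    unfold az
    rw [hsR, hsR', map_div₀, map_natCast, map_sum]
    have h1 : ∑ v ∈ R', (starRingEnd ℂ) (ψ (u' * v) * η' v⁻¹) = ∑ v ∈ R', ψ (u' * v)⁻¹ * η' v := by
      refine Finset.sum_congr rfl fun v _ => ?_
      rw [map_mul, ← hSTC G ⊤ ψ hψI, ← hSTC G K' η' hη', inv_inv]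
    rw [h1, div_eq_mul_inv, div_eq_mul_inv]
    ring
  rw [hsS, Finset.sum_congr rfl hterm, ← Finset.mul_sum]
  rw [HOR_gen S R R' (fun ψ v => ψ (u * v)) (fun ψ v => ψ (u' * v)⁻¹) (fun v => η v⁻¹) (fun v => η' v)]
  have hBC : BC M (⊤ : Subgroup G) (Bl M (⊤ : Subgroup G) θ) := (Q1_BC M ⊤ 1 θ).1
  by_cases hc : ∃ g : G, g * u * g⁻¹ = u'
  · obtain ⟨g, hg⟩ := hc
    have hSBn := hex g hg
    have hgm : ∀ v : G, g * v * g⁻¹ ∈ K' ↔ v ∈ K := by
      intro v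
      rw [hmK, hmK', ← hg]
      constructor
      · intro h
        calc u * v = g⁻¹ * (g * u * g⁻¹ * (g * v * g⁻¹)) * g := by group
          _ = g⁻¹ * (g * v * g⁻¹ * (g * u * g⁻¹)) * g := by rw [h]
          _ = v * u := by group
      · intro h
        calc g * u * g⁻¹ * (g * v * g⁻¹) = g * (u * v) * g⁻¹ := by group
          _ = g * (v * u) * g⁻¹ := by rw [h]
          _ = g * v * g⁻¹ * (g * u * g⁻¹) := by group
    have hgK : cjS g K = K' := by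
      ext x
      rw [mem_cjS, ← hgm]
      have : g * (g⁻¹ * x * g) * g⁻¹ = x := by group
      rw [this]
    have hreg : ∀ v : G, PReg p (g * v * g⁻¹) ↔ PReg p v := by
      intro v
      have h1 : orderOf (g * v * g⁻¹) = orderOf v := by
        have := orderOf_injective (MulAut.conj g).toMonoidHom (MulAut.conj g).injective v
        simpa using this
      unfold PReg
      rw [h1]
    have hkey : ∀ v ∈ R, ∀ v' ∈ R', ∑ ψ ∈ S, ψ (u * v) * ψ (u' * v')⁻¹ =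
        ∑ ψ ∈ Q, ψ (g * v * g⁻¹) * ψ v'⁻¹ := by
      intro v hv v' hv'
      have hv1 := (hR v).1 hv
      have hv2 := (hR' v').1 hv'
      have h1 := ((hSFC G ⊤ (Bl M (⊤ : Subgroup G) θ) hBC.sub).1 (u * v) (u' * v') g
        (Subgroup.mem_top g)).1
      have h2 : g * (u * v) * g⁻¹ = u' * (g * v * g⁻¹) := by
        rw [← hg]
        group
      rw [h2] at h1
      have h3 := hBRY p M hM G ⊤ u' (Subgroup.mem_top _) hu' θ (g * v * g⁻¹)
        (by rw [hK']; exact (hgm v).2 hv1.1) v' (by rw [hK']; exact hv2.1) ((hreg v).2 hv1.2) hv2.2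
      rw [hK'] at h3
      rw [h3] at h1
      unfold Sf at h1
      rw [hsS, hsQ] at h1
      exact h1.symm
    rw [Finset.sum_congr rfl fun v hv => Finset.sum_congr rfl fun v' hv' =>
      congrArg (fun t => η v⁻¹ * η' v' * t) (hkey v hv v' hv')]
    rw [← HOR_gen Q R R' (fun ψ v => ψ (g * v * g⁻¹)) (fun ψ v => ψ v⁻¹) (fun v => η v⁻¹) (fun v => η' v)]
    have hcard : (Nat.card K' : ℂ) ≠ 0 := by exact_mod_cast Nat.card_pos.ne'
    have hz : ∀ ψ ∈ Q, (∑ v ∈ R, ψ (g * v * g⁻¹) * η v⁻¹) * (∑ v ∈ R', ψ v⁻¹ * η' v) = 0 := by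
      intro ψ hψ
      have hψ1 := (hQ ψ).1 hψ
      have hBCψ : BC M K' (Bl M K' ψ) := (Q1_BC M K' 1 ψ).1
      have hψm : ψ ∈ Bl M K' ψ := ⟨hψ1.1, SB.refl K' ψ⟩
      have hcjI : cjF g η ∈ IrrOn K' := by
        have := (hFEQ G M g 1 K K K η η η).2.2.2.1.1 hη
        rwa [hgK] at this
      by_cases h0 : SB M K' η' ψ
      · have h1 : ¬ SB M K' (cjF g η) ψ := fun h => hSBn (SB.trans h (SB.symm h0))
        have h2 := ((hQEI p M hM G K' (Bl M K' ψ) hBCψ).2.1 ψ hψm (cjF g η) hcjI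
          (fun h => h1 h.2)).1
        have h3 : ∑ v ∈ R, ψ (g * v * g⁻¹) * η v⁻¹ = ∑ v ∈ R', ψ v * cjF g η v⁻¹ := by
          refine Finset.sum_bij' (fun v _ => g * v * g⁻¹) (fun v _ => g⁻¹ * v * g) ?_ ?_ ?_ ?_ ?_
          · intro v hv
            have := (hR v).1 hv
            exact (hR' _).2 ⟨(hgm v).2 this.1, (hreg v).2 this.2⟩
          · intro v hv
            have := (hR' v).1 hv
            have h4 : g * (g⁻¹ * v * g) * g⁻¹ = v := by group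
            refine (hR _).2 ⟨?_, ?_⟩
            · rw [← hgm, h4]
              exact this.1
            · rw [← hreg, h4]
              exact this.2
          · intro v _
            group
          · intro v _
            group
          · intro v _
            rw [cjF_apply]
            have h4 : g⁻¹ * (g * v * g⁻¹)⁻¹ * g = v⁻¹ := by group
            rw [h4]
        rw [h3]
        unfold EE at h2
        rw [hsR', div_eq_zero_iff] at h2
        rcases h2 with h2 | h2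
        · rw [h2, zero_mul]
        · exact absurd h2 hcard
      · have h2 := ((hQEI p M hM G K' (Bl M K' ψ) hBCψ).2.1 ψ hψm η' hη' (fun h => h0 h.2)).2
        unfold EE at h2
        rw [hsR', div_eq_zero_iff] at h2
        rcases h2 with h2 | h2
        · have h3 : ∑ v ∈ R', ψ v⁻¹ * η' v = ∑ v ∈ R', η' v * ψ v⁻¹ :=
            Finset.sum_congr rfl fun v _ => mul_comm _ _
          rw [h3, h2, mul_zero]
        · exact absurd h2 hcard
    rw [Finset.sum_eq_zero hz, mul_zero]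
  · have hz : ∀ v ∈ R, ∀ v' ∈ R', ∑ ψ ∈ S, ψ (u * v) * ψ (u' * v')⁻¹ = 0 := by
      intro v hv v' hv'
      have hv1 := (hR v).1 hv
      have hv2 := (hR' v').1 hv'
      have h1 := hBR0 p M hM G ⊤ (Bl M (⊤ : Subgroup G) θ) hBC u (Subgroup.mem_top _) v
        (Subgroup.mem_top _) u' (Subgroup.mem_top _) v' (Subgroup.mem_top _) hu hu' hv1.2 hv2.2
        ((hmK v).1 hv1.1) ((hmK' v').1 hv2.1) (fun h _ e => hc ⟨h⁻¹, by rw [inv_inv]; exact e⟩)
      unfold Sf at h1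
      rw [hsS] at h1
      exact h1
    rw [Finset.sum_congr rfl fun v hv => Finset.sum_congr rfl fun v' hv' =>
      congrArg (fun t => η v⁻¹ * η' v' * t) (hz v hv v' hv')]
    simp

end Pool.Agent.BR
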